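import Mathlib

/-!
James' argument: almost isometric copies of `ℓ_∞^k` inside isomorphic copies of `ℓ_∞^(k^m)`.
-/

set_option autoImplicit false

namespace Pool.Agent.Y995.ST1

variable {X : Type} [NormedAddCommGroup X] [NormedSpace ℝ X]

theorem james_step {k : ℕ} (hk : 1 ≤ k) {ε C : ℝ} (hC : 0 < C) {κ : Type}
    [Fintype κ] (y : Fin k × κ → X) (hup : ∀ a : Fin k × κ → ℝ, ‖∑ i, a i • y i‖ ≤ C * ‖a‖)
    (hB : ∀ j, ∃ a : κ → ℝ, (1 - ε) * C * ‖a‖ < ‖∑ i, a i • y (j, i)‖) :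
    ∃ z : Fin k → X, ∀ c : Fin k → ℝ, (1 - 2 * ε) * ‖c‖ ≤ ‖∑ j, c j • z j‖ ∧
      ‖∑ j, c j • z j‖ ≤ ‖c‖ := by
  choose a ha using hB
  have ha0 : ∀ j, 0 < ‖a j‖ := by
    intro j
    rw [norm_pos_iff]
    intro h0
    have := ha j
    rw [h0] at this
    simp at this
  obtain ⟨b, hb⟩ : ∃ b : Fin k → κ → ℝ, b = fun j => ‖a j‖⁻¹ • a j := ⟨_, rfl⟩
  have hb1 : ∀ j, ‖b j‖ = 1 := by
    intro j
    rw [hb]
    simp only
    rw [norm_smul, norm_inv, norm_norm, inv_mul_cancel₀ (ha0 j).ne']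
  obtain ⟨w, hw⟩ : ∃ w : Fin k → X, w = fun j => ∑ i, b j i • y (j, i) := ⟨_, rfl⟩
  have hw1 : ∀ j, (1 - ε) * C < ‖w j‖ := by
    intro j
    have h1 : w j = ‖a j‖⁻¹ • ∑ i, a j i • y (j, i) := by
      rw [hw, hb, Finset.smul_sum]
      refine Finset.sum_congr rfl fun i _ => ?_
      simp only [Pi.smul_apply, smul_eq_mul]
      rw [smul_smul]
    rw [h1, norm_smul, norm_inv, norm_norm, inv_mul_eq_div, lt_div_iff₀ (ha0 j)]
    exact ha j
  have hupw : ∀ c : Fin k → ℝ, ‖∑ j, c j • (C⁻¹ • w j)‖ ≤ ‖c‖ := by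
    intro c
    have h1 : ∑ j, c j • (C⁻¹ • w j) = C⁻¹ • ∑ p : Fin k × κ, (c p.1 * b p.1 p.2) • y p := by
      rw [Fintype.sum_prod_type, Finset.smul_sum]
      refine Finset.sum_congr rfl fun j _ => ?_
      rw [smul_comm, hw]
      congr 1
      rw [Finset.smul_sum]
      refine Finset.sum_congr rfl fun i _ => ?_
      rw [smul_smul]
    have h2 := hup (fun p => c p.1 * b p.1 p.2)
    have h3 : ‖(fun p : Fin k × κ => c p.1 * b p.1 p.2)‖ ≤ ‖c‖ := by
      refine (pi_norm_le_iff_of_nonneg (norm_nonneg _)).2 fun p => ?_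
      rw [norm_mul]
      calc ‖c p.1‖ * ‖b p.1 p.2‖ ≤ ‖c‖ * 1 := by
            refine mul_le_mul (norm_le_pi_norm c _) ?_ (norm_nonneg _) (norm_nonneg _)
            rw [← hb1 p.1]
            exact norm_le_pi_norm (b p.1) _
        _ = ‖c‖ := mul_one _
    rw [h1, norm_smul, norm_inv, Real.norm_of_nonneg hC.le]
    calc C⁻¹ * ‖∑ p : Fin k × κ, (c p.1 * b p.1 p.2) • y p‖ ≤ C⁻¹ * (C * ‖c‖) :=
          mul_le_mul_of_nonneg_left (h2.trans (mul_le_mul_of_nonneg_left h3 hC.le))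
            (inv_nonneg.2 hC.le)
      _ = ‖c‖ := by rw [← mul_assoc, inv_mul_cancel₀ hC.ne', one_mul]
  refine ⟨fun j => C⁻¹ • w j, fun c => ⟨?_, hupw c⟩⟩
  have : Nonempty (Fin k) := ⟨⟨0, hk⟩⟩
  obtain ⟨j0, hj0⟩ : ∃ j0, ‖c‖ = ‖c j0‖ := by
    obtain ⟨j0, -, h⟩ := Finset.exists_max_image Finset.univ (fun j => ‖c j‖) Finset.univ_nonempty
    refine ⟨j0, le_antisymm ?_ (norm_le_pi_norm c j0)⟩
    exact (pi_norm_le_iff_of_nonneg (norm_nonneg _)).2 fun j => h j (Finset.mem_univ _)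
  obtain ⟨c', hc'⟩ : ∃ c' : Fin k → ℝ, c' = fun j => if j = j0 then c j0 else - c j := ⟨_, rfl⟩
  have h1 : ‖c'‖ ≤ ‖c‖ := by
    refine (pi_norm_le_iff_of_nonneg (norm_nonneg _)).2 fun j => ?_
    rw [hc']
    by_cases h : j = j0
    · simp only [h, if_true]
      exact norm_le_pi_norm c j0
    · simp only [h, if_false, norm_neg]
      exact norm_le_pi_norm c j
  have h2 : ∑ j, c j • (C⁻¹ • w j) + ∑ j, c' j • (C⁻¹ • w j) = (2 * c j0) • (C⁻¹ • w j0) := by
    rw [← Finset.sum_add_distrib]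
    rw [Finset.sum_eq_single j0]
    · rw [← add_smul, hc']
      simp only [if_true]
      rw [two_mul]
    · intro j _ hj
      rw [← add_smul, hc']
      simp only [hj, if_false]
      simp
    · intro h
      exact absurd (Finset.mem_univ _) h
  have h3 : ‖(2 * c j0) • (C⁻¹ • w j0)‖ = 2 * ‖c‖ * (C⁻¹ * ‖w j0‖) := by
    rw [norm_smul, norm_smul, norm_mul, norm_inv, Real.norm_of_nonneg hC.le, hj0]
    norm_num
  have h4 : (1 - ε) ≤ C⁻¹ * ‖w j0‖ := by
    rw [inv_mul_eq_div, le_div_iff₀ hC]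
    exact (hw1 j0).le
  have h5 := norm_add_le (∑ j, c j • (C⁻¹ • w j)) (∑ j, c' j • (C⁻¹ • w j))
  rw [h2, h3] at h5
  have h6 := hupw c'
  have h7 : 2 * ‖c‖ * (1 - ε) ≤ 2 * ‖c‖ * (C⁻¹ * ‖w j0‖) :=
    mul_le_mul_of_nonneg_left h4 (by positivity)
  linarith

theorem james {k : ℕ} (hk : 1 ≤ k) {ε : ℝ} (hε1 : ε < 1) :
    ∀ (m : ℕ) (C : ℝ), 0 < C → (1 - ε) ^ m * C < 1 → ∀ (ι : Type) [Fintype ι],
      Fintype.card ι = k ^ m → ∀ y : ι → X,
      (∀ a : ι → ℝ, ‖a‖ ≤ ‖∑ i, a i • y i‖ ∧ ‖∑ i, a i • y i‖ ≤ C * ‖a‖) →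
      ∃ z : Fin k → X, ∀ c : Fin k → ℝ, (1 - 2 * ε) * ‖c‖ ≤ ‖∑ j, c j • z j‖ ∧
        ‖∑ j, c j • z j‖ ≤ ‖c‖ := by
  intro m
  induction m with
  | zero =>
    intro C hC h ι _ hι y hy
    exfalso
    rw [pow_zero, one_mul] at h
    rw [pow_zero] at hι
    have hne : Nonempty ι := Fintype.card_pos_iff.1 (by omega)
    have h1 := (hy (fun _ => 1)).1.trans (hy (fun _ => 1)).2
    have h2 : ‖(fun _ : ι => (1:ℝ))‖ = 1 := by
      rw [pi_norm_const, norm_one]
    rw [h2] at h1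
    linarith
  | succ m ih =>
    intro C hC h ι _ hι y hy
    have he : Fintype.card (Fin k × Fin (k ^ m)) = Fintype.card ι := by
      rw [hι, Fintype.card_prod, Fintype.card_fin, Fintype.card_fin, pow_succ, mul_comm]
    obtain ⟨e⟩ := Fintype.card_eq.1 he
    have hy' : ∀ a : Fin k × Fin (k ^ m) → ℝ, ‖a‖ ≤ ‖∑ i, a i • y (e i)‖ ∧
        ‖∑ i, a i • y (e i)‖ ≤ C * ‖a‖ := by
      intro a
      have h1 := hy (a ∘ e.symm)
      have h2 : ∑ i, (a ∘ e.symm) i • y i = ∑ i, a i • y (e i) := by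
        rw [← e.sum_comp]
        refine Finset.sum_congr rfl fun i _ => ?_
        simp
      have h3 : ‖a ∘ e.symm‖ = ‖a‖ := by
        refine le_antisymm ?_ ?_
        · exact (pi_norm_le_iff_of_nonneg (norm_nonneg _)).2 fun i => norm_le_pi_norm a _
        · refine (pi_norm_le_iff_of_nonneg (norm_nonneg _)).2 fun i => ?_
          have := norm_le_pi_norm (a ∘ e.symm) (e i)
          simpa using this
      rw [h2, h3] at h1
      exact h1
    by_cases hA : ∃ j : Fin k, ∀ a : Fin (k ^ m) → ℝ,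
        ‖∑ i, a i • y (e (j, i))‖ ≤ (1 - ε) * C * ‖a‖
    · obtain ⟨j, hj⟩ := hA
      refine ih ((1 - ε) * C) (mul_pos (by linarith) hC) ?_ (Fin (k ^ m)) (by simp)
        (fun i => y (e (j, i))) ?_
      · calc (1 - ε) ^ m * ((1 - ε) * C) = (1 - ε) ^ (m + 1) * C := by ring
          _ < 1 := h
      · intro a
        refine ⟨?_, hj a⟩
        obtain ⟨a', ha'⟩ : ∃ a' : Fin k × Fin (k ^ m) → ℝ,
          a' = fun p => if p.1 = j then a p.2 else 0 := ⟨_, rfl⟩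
        have h1 := (hy' a').1
        have h2 : ∑ i, a' i • y (e i) = ∑ i, a i • y (e (j, i)) := by
          rw [Fintype.sum_prod_type, Finset.sum_eq_single j]
          · refine Finset.sum_congr rfl fun i _ => ?_
            rw [ha']
            simp
          · intro j' _ hj'
            refine Finset.sum_eq_zero fun i _ => ?_
            rw [ha']
            simp [hj']
          · intro h
            exact absurd (Finset.mem_univ _) h
        have h3 : ‖a‖ ≤ ‖a'‖ := by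
          refine (pi_norm_le_iff_of_nonneg (norm_nonneg _)).2 fun i => ?_
          have := norm_le_pi_norm a' (j, i)
          rw [ha'] at this ⊢
          simpa using this
        rw [h2] at h1
        exact h3.trans h1
    · push Not at hA
      exact james_step hk hC (fun p => y (e p)) (fun a => (hy' a).2) hA

end Pool.Agent.Y995.ST1
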