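import Pool.Agent.Y995.ST1.Fin1
import Pool.Agent.Y995.ST1.James

/-!
Almost isometric copies of `ℓ_∞^k`, and a characterisation of the spaces containing them.
-/

set_option autoImplicit false
set_option maxHeartbeats 1000000

namespace Pool.Agent.Y995.ST1

theorem iso_part {X : Type} [NormedAddCommGroup X] [NormedSpace ℝ X]
    [FiniteDimensional ℝ X] {k N : ℕ} {D ε : ℝ} (hk : 1 ≤ k) (hε : 0 < ε) (hε1 : ε ≤ 1)
    (hn : 2 ≤ Module.finrank ℝ X) (hemb : EmbedsD X N D) {A' A A2 : ℝ}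
    (hA' : A' = 34 * Real.exp 100) (hA : 3000 * A' * (1 + Real.log A') ≤ A) (hA1 : 1 ≤ A)
    (hA2 : Real.log A + 416 ≤ A2)
    (hN : (N : ℝ) < Real.exp (Real.exp (-Real.exp (A2 * (1 + Real.log D) * (1 + Real.log k) / ε)) *
      Module.finrank ℝ X)) :
    ∃ z : Fin k → X, ∀ c : Fin k → ℝ, (1 - ε) * ‖c‖ ≤ ‖∑ i, c i • z i‖ ∧
      ‖∑ i, c i • z i‖ ≤ ‖c‖ := by
  have he := exp100
  have : Nontrivial X := Module.nontrivial_of_finrank_pos (R := ℝ) (by omega)
  obtain ⟨x0, hx0⟩ := exists_ne (0 : X)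
  have hD := one_le_D hemb x0 hx0
  have hD0 : 0 < D := by linarith
  obtain ⟨C, hC⟩ : ∃ C : ℝ, C = 8 * Real.exp 100 * D := ⟨_, rfl⟩
  have hC1 : 1 ≤ C := by
    rw [hC]
    have : 1 ≤ Real.exp 100 * D := one_le_mul_of_one_le_of_one_le he hD
    nlinarith
  have hC0 : 0 < C := by linarith
  have hkR : (1:ℝ) ≤ k := by exact_mod_cast hk
  obtain ⟨u, hu⟩ : ∃ u : ℝ, u = Real.log D := ⟨_, rfl⟩
  obtain ⟨v, hv⟩ : ∃ v : ℝ, v = Real.log k := ⟨_, rfl⟩
  have hu0 : 0 ≤ u := by rw [hu]; exact Real.log_nonneg hD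
  have hv0 : 0 ≤ v := by rw [hv]; exact Real.log_nonneg hkR
  have hlC : Real.log C ≤ 103 + u := by
    rw [hC, Real.log_mul (by positivity) (by positivity), Real.log_mul (by norm_num) (by positivity),
      Real.log_exp, hu]
    have h8 : Real.log 8 ≤ 3 := by
      have h1 := e3
      have h2 := Real.log_le_log (by norm_num) h1
      rwa [Real.log_exp] at h2
    linarith
  have hlC0 : 0 ≤ Real.log C := Real.log_nonneg hC1
  obtain ⟨m, hm⟩ : ∃ m : ℕ, m = ⌊2 * Real.log C / ε⌋₊ + 1 := ⟨_, rfl⟩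
  have hm1 : 2 * Real.log C / ε < m := by
    rw [hm]; push_cast; exact Nat.lt_floor_add_one _
  have hm2 : (m:ℝ) ≤ 2 * Real.log C / ε + 1 := by
    rw [hm]; push_cast
    have := Nat.floor_le (by positivity : 0 ≤ 2 * Real.log C / ε)
    linarith
  have hm1' : 2 * Real.log C < m * ε := by rwa [div_lt_iff₀ hε] at hm1
  have hm2' : (m:ℝ) * ε ≤ 2 * Real.log C + ε := by
    calc (m:ℝ) * ε ≤ (2 * Real.log C / ε + 1) * ε := mul_le_mul_of_nonneg_right hm2 hε.le
      _ = 2 * Real.log C + ε := by field_simp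
  have hkm : 1 ≤ k ^ m := Nat.one_le_pow _ _ hk
  have hkmR : (1:ℝ) ≤ ((k ^ m : ℕ) : ℝ) := by exact_mod_cast hkm
  have ht1 : 1 ≤ D * ((k ^ m : ℕ) : ℝ) := one_le_mul_of_one_le_of_one_le hD hkmR
  obtain ⟨t, ht⟩ : ∃ t : ℝ, t = D * ((k ^ m : ℕ) : ℝ) := ⟨_, rfl⟩
  rw [← ht] at ht1
  have ht0 : 0 < t := by linarith
  have hlt : Real.log t = u + m * v := by
    rw [ht, Real.log_mul hD0.ne' (by positivity), hu, hv]
    push_cast
    rw [Real.log_pow]
  have hN2 : (N : ℝ) < Real.exp (Real.exp (-(A * (D * ((k ^ m : ℕ) : ℝ)) *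
      (1 + Real.log (D * ((k ^ m : ℕ) : ℝ))))) * Module.finrank ℝ X) := by
    refine hN.trans_le (Real.exp_le_exp.2 ?_)
    refine mul_le_mul_of_nonneg_right (Real.exp_le_exp.2 (neg_le_neg ?_)) (Nat.cast_nonneg _)
    rw [← ht, ← hu, ← hv]
    have h1 : 1 + Real.log t ≤ t := by
      have := Real.log_le_sub_one_of_pos ht0
      linarith
    have h2 : A * t * (1 + Real.log t) ≤ A * t * t :=
      mul_le_mul_of_nonneg_left h1 (by positivity)
    have h3 : A * t * t = Real.exp (Real.log A + 2 * Real.log t) := by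
      rw [Real.exp_add, Real.exp_log (by linarith), two_mul, Real.exp_add, Real.exp_log ht0]
      ring
    refine h2.trans ?_
    rw [h3]
    refine Real.exp_le_exp.2 ?_
    rw [le_div_iff₀ hε, hlt]
    obtain ⟨a, ha⟩ : ∃ a : ℝ, a = Real.log A := ⟨_, rfl⟩
    have ha0 : 0 ≤ a := by rw [ha]; exact Real.log_nonneg hA1
    rw [← ha] at hA2 ⊢
    have h4 : (a + 416) * (1 + u) * (1 + v) ≤ A2 * (1 + u) * (1 + v) := by
      have h5 : 0 ≤ (1 + u) * (1 + v) := by positivity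
      have := mul_le_mul_of_nonneg_right hA2 h5
      linarith
    have h6 : (m:ℝ) * ε * v ≤ (2 * (103 + u) + 1) * v :=
      mul_le_mul_of_nonneg_right (by linarith) hv0
    have h7 : (a + 2 * (u + m * v)) * ε = a * ε + 2 * u * ε + 2 * (m * ε * v) := by ring
    have h8 : a * ε ≤ a := by nlinarith
    have h9 : 2 * u * ε ≤ 2 * u := by nlinarith
    have h10 : 0 ≤ u * v := mul_nonneg hu0 hv0
    have h11 : 0 ≤ a * u := mul_nonneg ha0 hu0
    have h12 : 0 ≤ a * v := mul_nonneg ha0 hv0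
    have h13 : 0 ≤ a * u * v := mul_nonneg h11 hv0
    calc (a + 2 * (u + m * v)) * ε = a * ε + 2 * u * ε + 2 * (m * ε * v) := h7
      _ ≤ a + 2 * u + 2 * ((2 * (103 + u) + 1) * v) := by linarith
      _ ≤ (a + 416) * (1 + u) * (1 + v) := by nlinarith
      _ ≤ A2 * (1 + u) * (1 + v) := h4
  obtain ⟨y, hy⟩ := copies_part hkm hn hemb hA' hA hN2
  rw [← hC] at hy
  have hε2 : ε / 2 < 1 := by linarith
  have hpow : (1 - ε / 2) ^ m * C < 1 := by
    have h1 : 1 - ε / 2 ≤ Real.exp (-(ε / 2)) := by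
      have := Real.add_one_le_exp (-(ε / 2))
      linarith
    have h2 : (1 - ε / 2) ^ m ≤ Real.exp (-(ε / 2)) ^ m :=
      pow_le_pow_left₀ (by linarith) h1 m
    rw [← Real.exp_nat_mul] at h2
    have h3 : Real.exp (m * -(ε / 2)) < Real.exp (-Real.log C) :=
      Real.exp_lt_exp.2 (by linarith)
    rw [Real.exp_neg (Real.log C), Real.exp_log hC0] at h3
    calc (1 - ε / 2) ^ m * C < C⁻¹ * C := mul_lt_mul_of_pos_right (h2.trans_lt h3) hC0
      _ = 1 := inv_mul_cancel₀ hC0.ne'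
  obtain ⟨z, hz⟩ := james hk hε2 m C hC0 hpow (Fin (k ^ m)) (by simp) y hy
  refine ⟨z, fun c => ⟨?_, (hz c).2⟩⟩
  have h1 := (hz c).1
  have h2 : (1 - 2 * (ε / 2)) = 1 - ε := by ring
  rwa [h2] at h1

theorem char_part (A2 : ℝ)
    (h3 : ∀ (k : ℕ) (D ε : ℝ), 1 ≤ k → 0 < ε → ε ≤ 1 →
      ∀ (X : Type) [NormedAddCommGroup X] [NormedSpace ℝ X] [FiniteDimensional ℝ X] (N : ℕ),
        2 ≤ Module.finrank ℝ X → EmbedsD X N D →
        (N : ℝ) < Real.exp (Real.exp
          (-Real.exp (A2 * (1 + Real.log D) * (1 + Real.log k) / ε)) * Module.finrank ℝ X) →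
        ∃ y : Fin k → X, ∀ a : Fin k → ℝ, (1 - ε) * ‖a‖ ≤ ‖∑ i, a i • y i‖ ∧
          ‖∑ i, a i • y i‖ ≤ ‖a‖)
    (Z : Type) [NormedAddCommGroup Z] [NormedSpace ℝ Z] (D : ℝ) (hD : 1 < D) :
    (∀ (k : ℕ) (ε : ℝ), 0 < ε → ∃ y : Fin k → Z, ∀ a : Fin k → ℝ,
        (1 - ε) * ‖a‖ ≤ ‖∑ i, a i • y i‖ ∧ ‖∑ i, a i • y i‖ ≤ ‖a‖) ↔
      ∀ c : ℝ, 0 < c → ∃ (E : Submodule ℝ Z) (N : ℕ), FiniteDimensional ℝ E ∧
        2 ≤ Module.finrank ℝ E ∧ EmbedsD E N D ∧ (N : ℝ) < Real.exp (c * Module.finrank ℝ E) := by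
  have hD0 : 0 < D := by linarith
  constructor
  · intro h c hc
    obtain ⟨k, hk2, hkc⟩ : ∃ k : ℕ, 2 ≤ k ∧ (k : ℝ) < Real.exp (c * k) := by
      obtain ⟨k, hk⟩ := exists_nat_gt (2 / c ^ 2)
      refine ⟨k + 2, by omega, ?_⟩
      have hc2 : 0 < c ^ 2 := by positivity
      rw [div_lt_iff₀ hc2] at hk
      have h1 := Real.quadratic_le_exp_of_nonneg (x := c * ((k + 2 : ℕ) : ℝ)) (by positivity)
      have h2 : ((k + 2 : ℕ) : ℝ) = (k:ℝ) + 2 := by push_cast; ring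
      refine lt_of_lt_of_le ?_ h1
      rw [h2]
      have h3 : 0 ≤ (k:ℝ) := Nat.cast_nonneg k
      have h4 : 2 < c ^ 2 * ((k:ℝ) + 2) := by nlinarith
      have h5 : (k:ℝ) + 2 < (c * ((k:ℝ) + 2)) ^ 2 / 2 := by
        have h6 : (c * ((k:ℝ) + 2)) ^ 2 = (c ^ 2 * ((k:ℝ) + 2)) * ((k:ℝ) + 2) := by ring
        rw [h6]
        have h7 : 2 * ((k:ℝ) + 2) < (c ^ 2 * ((k:ℝ) + 2)) * ((k:ℝ) + 2) :=
          mul_lt_mul_of_pos_right h4 (by positivity)
        linarith
      have h8 : 0 ≤ c * ((k:ℝ) + 2) := by positivity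
      linarith
    have hε : 0 < 1 - 1 / D := by
      have : 1 / D < 1 := by rw [div_lt_one hD0]; exact hD
      linarith
    obtain ⟨y, hy⟩ := h k (1 - 1 / D) hε
    have hy1 : ∀ a : Fin k → ℝ, ‖a‖ ≤ D * ‖∑ i, a i • y i‖ := by
      intro a
      have h1 := (hy a).1
      have h2 : 1 - (1 - 1 / D) = 1 / D := by ring
      rw [h2] at h1
      have h3 := mul_le_mul_of_nonneg_left h1 hD0.le
      have h4 : D * (1 / D * ‖a‖) = ‖a‖ := by field_simp
      rwa [h4] at h3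
    have hli : LinearIndependent ℝ y := by
      rw [Fintype.linearIndependent_iff]
      intro g hg i
      have h1 := hy1 g
      rw [hg, norm_zero, mul_zero] at h1
      have h2 : g = 0 := norm_le_zero_iff.1 h1
      rw [h2]; rfl
    let b := Module.Basis.span hli
    have hfin : FiniteDimensional ℝ (Submodule.span ℝ (Set.range y)) := b.finiteDimensional_of_finite
    have hfr : Module.finrank ℝ (Submodule.span ℝ (Set.range y)) = k := by
      rw [Module.finrank_eq_card_basis b, Fintype.card_fin]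
    refine ⟨Submodule.span ℝ (Set.range y), k, hfin, by rw [hfr]; exact hk2, ?_,
      by rw [hfr]; exact hkc⟩
    refine ⟨(b.equivFun : _ →ₗ[ℝ] _), fun x => ?_⟩
    have hx : ∑ i, (b.equivFun x) i • y i = (x : Z) := by
      have h1 := b.sum_equivFun x
      have h2 := congrArg (Subtype.val) h1
      rw [Submodule.coe_sum] at h2
      rw [← h2]
      refine Finset.sum_congr rfl fun i _ => ?_
      rw [Submodule.coe_smul, Module.Basis.span_apply]
    have h1 := (hy (b.equivFun x)).2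
    have h2 := hy1 (b.equivFun x)
    rw [hx] at h1 h2
    exact ⟨h1, h2⟩
  · intro h k ε hε
    rcases Nat.eq_zero_or_pos k with hk0 | hk1
    · subst hk0
      refine ⟨fun i => i.elim0, fun a => ?_⟩
      have ha : ‖a‖ = 0 := by
        rw [norm_eq_zero]
        exact Subsingleton.elim _ _
      rw [ha]
      simp
    · obtain ⟨E, N, hfin, hfr, hemb, hN⟩ := h
        (Real.exp (-Real.exp (A2 * (1 + Real.log D) * (1 + Real.log k) / (min ε 1))))
        (Real.exp_pos _)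
      obtain ⟨y, hy⟩ := h3 k D (min ε 1) hk1 (lt_min hε one_pos) (min_le_right _ _) E N hfr hemb hN
      refine ⟨fun i => (y i : Z), fun a => ?_⟩
      have h1 : ∑ i, a i • (y i : Z) = ((∑ i, a i • y i : E) : Z) := by
        rw [Submodule.coe_sum]
        rfl
      have h2 := hy a
      rw [h1]
      refine ⟨?_, h2.2⟩
      refine le_trans ?_ h2.1
      exact mul_le_mul_of_nonneg_right (by linarith [min_le_left ε 1]) (norm_nonneg _)

end Pool.Agent.Y995.ST1
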