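import Mathlib
import Pool.Agent.PZ871.Core
set_option autoImplicit false
set_option maxHeartbeats 1000000
namespace Pool.Agent.Y995.ST1
open Pool.Agent.PZ871
open Pool.Agent.PZ871.M_gp (gp)
open Pool.Agent.PZ871.M_cover (cover)
open Pool.Agent.PZ871.M_iter (iter)
open MeasureTheory Set
open scoped RealInnerProductSpace ENNReal

/-- The constant of the numerical core. -/
noncomputable def rho (k : ℕ) : ℝ :=
  2 * (Real.exp (-100) / (2 * k) / 5) ^ (2 * (14 * k)) / ((14 * k : ℕ) : ℝ)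

/-- The numerical core of `Pool.Agent.PZ871.Core` with explicit constants. -/
theorem core_exp (k : ℕ) (hk : 1 ≤ k) (n N : ℕ) (hn : max (2 * k + 1) ⌈12 / rho k⌉₊ ≤ n)
    (hN : (N : ℝ) ≤ Real.exp (min (rho k / 4) (1 / k) * n)) (f : Fin N → (E n →L[ℝ] ℝ))
    (hB : Body n {x : E n | ∀ j, |f j x| ≤ 1}) :
    ∃ s : Fin k → E n, (∀ i, ∃ j, Real.exp (-100) / 2 ≤ f j (s i)) ∧
      ∀ ε : Fin k → ℝ, (∀ i, ε i = 1 ∨ ε i = -1) → ∀ j, |f j (∑ i, ε i • s i)| ≤ 2 := by
  set c : ℝ := Real.exp (-100) with hc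
  have hc0 : 0 < c := Real.exp_pos _
  have hc1 : c ≤ 1 := by rw [hc]; exact Real.exp_le_one_iff.mpr (by norm_num)
  have hkR : (1:ℝ) ≤ k := by exact_mod_cast hk
  have hk0 : (0:ℝ) < k := by linarith
  set η : ℝ := c / (2 * k) with hη
  have hη0 : 0 < η := by positivity
  have hηc : η ≤ c / 2 := by
    rw [hη, div_le_div_iff₀ (by positivity) (by norm_num)]
    nlinarith
  have hηk : k * η ≤ 1 := by
    have : (k:ℝ) * η = c / 2 := by rw [hη]; field_simp
    rw [this]; linarith
  have hη1 : η ≤ 1 := by linarith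
  set m : ℕ := 14 * k with hm
  have hm1 : 1 ≤ m := by omega
  have hmR : (m:ℝ) = 14 * k := by rw [hm]; push_cast; ring
  have hm0 : (0:ℝ) < m := by rw [hmR]; positivity
  have hρ' : rho k = 2 * (η / 5) ^ (2 * m) / m := rfl
  rw [hρ'] at hn hN
  set ρ : ℝ := 2 * (η / 5) ^ (2 * m) / m with hρ
  have hρ0 : 0 < ρ := by positivity
  set δ := min (ρ / 4) (1 / (k:ℝ)) with hδ
  have hδ1 : δ ≤ ρ / 4 := min_le_left _ _
  have hδ2 : k * δ ≤ 1 := by
    have : δ ≤ 1 / k := min_le_right _ _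
    calc (k:ℝ) * δ ≤ k * (1 / k) := mul_le_mul_of_nonneg_left this hk0.le
      _ = 1 := by field_simp
  have hn1 : 2 * k + 1 ≤ n := (le_max_left _ _).trans hn
  have hn2 : 12 / ρ ≤ n := by
    have h1 : ⌈12 / ρ⌉₊ ≤ n := (le_max_right _ _).trans hn
    exact (Nat.le_ceil _).trans (by exact_mod_cast h1)
  have hn1R : 2 * (k:ℝ) + 1 ≤ n := by exact_mod_cast hn1
  have hnpos : (0:ℝ) < n := by linarith
  have hn3 : 12 ≤ ρ * n := by
    rw [div_le_iff₀ hρ0] at hn2
    linarith
  set K : Set (E n) := {x : E n | ∀ j, |f j x| ≤ 1} with hK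
  -- N ≥ 1
  have hN1 : 1 ≤ N := by
    by_contra hcon
    have hN0 : N = 0 := by omega
    subst hN0
    have hKu : K = univ := by
      ext x
      simp [hK]
    have hcpt := hB.cpt
    rw [hKu] at hcpt
    haveI : Nonempty (Fin n) := ⟨⟨0, by omega⟩⟩
    haveI : Nontrivial (E n) := inferInstance
    exact noncompact_univ (E n) hcpt
  have hNR : (1:ℝ) ≤ N := by exact_mod_cast hN1
  obtain ⟨M, hMB, hM1, hM2⟩ := gp n (by omega) K hB
  set f' : Fin N → (E n →L[ℝ] ℝ) := fun j => (f j).comp (M.symm : E n →L[ℝ] E n) with hf'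
  have hf'a : ∀ j x, f' j x = f j (M.symm x) := fun j x => rfl
  have hK' : M '' K = {x : E n | ∀ j, |f' j x| ≤ 1} := by
    ext y
    simp only [mem_image, mem_setOf_eq, hK, hf'a]
    constructor
    · rintro ⟨x, hx, rfl⟩ j
      rw [M.symm_apply_apply]
      exact hx j
    · intro h
      exact ⟨M.symm y, h, M.apply_symm_apply y⟩
  have hscale : ∀ t : ℝ, 0 < t → {x : E n | ∀ j, |f' j x| ≤ t} = (fun x => t • x) '' (M '' K) := by
    intro t ht
    rw [hK']
    ext x
    simp only [mem_image, mem_setOf_eq]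
    constructor
    · intro h
      refine ⟨t⁻¹ • x, fun j => ?_, ?_⟩
      · rw [map_smul, smul_eq_mul, abs_mul, abs_of_pos (inv_pos.mpr ht), inv_mul_le_iff₀ ht, mul_one]
        exact h j
      · rw [smul_smul, mul_inv_cancel₀ ht.ne', one_smul]
    · rintro ⟨y, hy, rfl⟩ j
      rw [map_smul, smul_eq_mul, abs_mul, abs_of_pos ht]
      calc t * |f' j y| ≤ t * 1 := mul_le_mul_of_nonneg_left (hy j) ht.le
        _ = t := mul_one t
  have hclosed : ∀ t : ℝ, IsClosed {x : E n | ∀ j, |f' j x| ≤ t} := by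
    intro t
    have : {x : E n | ∀ j, |f' j x| ≤ t} = ⋂ j, {x : E n | |f' j x| ≤ t} := by
      ext x; simp
    rw [this]
    exact isClosed_iInter fun j => isClosed_le (by fun_prop) continuous_const
  have hcpt : ∀ t : ℝ, IsCompact {x : E n | ∀ j, |f' j x| ≤ t} := by
    intro t
    have hcc : IsCompact {x : E n | ∀ j, |f' j x| ≤ max t 1} := by
      rw [hscale _ (lt_max_of_lt_right one_pos)]
      exact hMB.cpt.image (continuous_const_smul _)
    refine hcc.of_isClosed_subset (hclosed t) ?_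
    intro x hx j
    exact (hx j).trans (le_max_left _ _)
  have hrsq : Real.sqrt (ρ * n) ^ 2 = ρ * n := Real.sq_sqrt (by positivity)
  have hlogN : Real.log (8 * N) ≤ 3 + δ * n := by
    rw [Real.log_mul (by norm_num) (by positivity)]
    have h1 : Real.log N ≤ δ * n := by
      rw [Real.log_le_iff_le_exp (by positivity)]
      exact hN
    have h2 : Real.log 8 ≤ 3 := by
      have : (8:ℝ) = 2 ^ 3 := by norm_num
      rw [this, Real.log_pow]
      have := Real.log_two_lt_d9
      push_cast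
      linarith
    linarith
  have hcov : ∀ S : Finset (E n), (∀ x ∈ S, (∀ j, |f' j x| ≤ 2) ∧ ‖x‖ ≤ Real.sqrt (ρ * n)) →
      (∀ x ∈ S, ∀ y ∈ S, x ≠ y → ∃ j, η < |f' j (x - y)|) → (S.card : ℝ) ≤ Real.exp (7 * n / m) := by
    intro S hS hsep
    refine cover n (M '' K) hMB hM1 η hη0 hη1 m hm1 S ?_ ?_
    · intro x hx
      obtain ⟨h1, h2⟩ := hS x hx
      constructor
      · have : x ∈ {x : E n | ∀ j, |f' j x| ≤ 2} := h1
        rw [hscale 2 (by norm_num)] at this
        obtain ⟨y, hy, he⟩ := this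
        exact ⟨y, hy, he.symm⟩
      · calc ‖x‖ ^ 2 ≤ Real.sqrt (ρ * n) ^ 2 := pow_le_pow_left₀ (norm_nonneg _) h2 2
          _ = ρ * n := hrsq
    · rintro x hx y hy hxy ⟨z, hz, he⟩
      obtain ⟨j, hj⟩ := hsep x hx y hy hxy
      rw [hK'] at hz
      rw [he, map_smul, smul_eq_mul, abs_mul, abs_of_pos hη0] at hj
      have := mul_le_mul_of_nonneg_left (hz j) hη0.le
      linarith
  have hG : Real.exp (-(6 * n)) ≤ (gm n).real {x : E n | ∀ j, |f' j x| ≤ 1} := by
    rw [← hK']; exact hM1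
  have hsm : 2 * (gm n).real {x : E n | ∀ j, |f' j x| ≤ c}
      < Real.exp (-(6 * n)) / (8 * N * Real.exp (7 * n / m)) ^ k := by
    have h1 : (gm n).real {x : E n | ∀ j, |f' j x| ≤ c} ≤ Real.exp (-(9 * n)) := by
      rw [hscale c hc0]; exact hM2
    rw [lt_div_iff₀ (by positivity)]
    have h8 : (8:ℝ) ≤ Real.exp 3 := by
      have h := Real.exp_one_gt_d9
      have : Real.exp 3 = Real.exp 1 ^ 3 := by rw [← Real.exp_nat_mul]; norm_num
      rw [this]
      have h2 : (2:ℝ) ^ 3 ≤ Real.exp 1 ^ 3 := pow_le_pow_left₀ (by norm_num) (by linarith) 3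
      linarith
    have h3 : (8 * N * Real.exp (7 * n / m)) ^ k ≤ Real.exp (3 * k + n + n / 2) := by
      have h4 : 8 * (N:ℝ) * Real.exp (7 * n / m) ≤ Real.exp (3 + δ * n + 7 * n / m) := by
        rw [Real.exp_add, Real.exp_add]
        gcongr
      calc (8 * (N:ℝ) * Real.exp (7 * n / m)) ^ k ≤ (Real.exp (3 + δ * n + 7 * n / m)) ^ k :=
            pow_le_pow_left₀ (by positivity) h4 k
        _ = Real.exp (k * (3 + δ * n + 7 * n / m)) := by rw [← Real.exp_nat_mul]
        _ ≤ Real.exp (3 * k + n + n / 2) := by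
            refine Real.exp_le_exp.mpr ?_
            have e : (k:ℝ) * (7 * n / m) = n / 2 := by
              rw [hmR]; field_simp; norm_num
            have e2 : (k:ℝ) * (3 + δ * n + 7 * n / m) = 3 * k + (k * δ) * n + k * (7 * n / m) := by ring
            rw [e2, e]
            nlinarith
    have h5 : 2 * (gm n).real {x : E n | ∀ j, |f' j x| ≤ c} * (8 * N * Real.exp (7 * n / m)) ^ k
        ≤ 2 * Real.exp (-(9 * n)) * Real.exp (3 * k + n + n / 2) := by
      have h6 : 0 ≤ (gm n).real {x : E n | ∀ j, |f' j x| ≤ c} := measureReal_nonneg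
      exact mul_le_mul (by linarith) h3 (by positivity) (by positivity)
    refine lt_of_le_of_lt h5 ?_
    have h7 : (2:ℝ) < Real.exp 1 := by
      have h := Real.exp_one_gt_d9
      linarith
    calc 2 * Real.exp (-(9 * n)) * Real.exp (3 * k + n + n / 2)
        = 2 * (Real.exp (-(9 * n)) * Real.exp (3 * k + n + n / 2)) := by ring
      _ < Real.exp 1 * (Real.exp (-(9 * n)) * Real.exp (3 * k + n + n / 2)) :=
          mul_lt_mul_of_pos_right h7 (by positivity)
      _ = Real.exp (1 + (-(9 * n) + (3 * k + n + n / 2))) := by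
          rw [← Real.exp_add, ← Real.exp_add]
      _ ≤ Real.exp (-(6 * n)) := by
          refine Real.exp_le_exp.mpr ?_
          linarith
  obtain ⟨s, hs1, hs2⟩ := iter n N k hN1 hk f' c hc0 η (Real.sqrt (ρ * n)) (Real.exp (7 * n / m))
    (Real.exp (-(6 * n))) hη0 hηc hηk (by
      rw [hrsq]
      have : δ * n ≤ ρ / 4 * n := mul_le_mul_of_nonneg_right hδ1 hnpos.le
      linarith) (Real.sqrt_nonneg _) (Real.one_le_exp (by positivity)) hcpt hcov hG (Real.exp_pos _) hsm
  refine ⟨fun i => M.symm (s i), hs1, ?_⟩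
  intro ε hε j
  have := hs2 ε hε j
  rw [hf'a, map_sum] at this
  simpa [map_smul] using this


end Pool.Agent.Y995.ST1
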