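import Pool.Agent.Y995.ST1.Main

/-!
Explicit bounds: cotype and copies of `ℓ_∞^k`.
-/

set_option autoImplicit false
set_option maxHeartbeats 1000000

namespace Pool.Agent.Y995.ST1

open Pool.Agent.PZ871
open MeasureTheory Set

variable {X : Type} [NormedAddCommGroup X] [NormedSpace ℝ X]

theorem sq_avg {k : ℕ} (x : Fin k → X)
    (h : ∀ ε : Fin k → ℝ, (∀ i, ε i = 1 ∨ ε i = -1) → ‖∑ i, ε i • x i‖ ≤ 2) :
    Real.sqrt ((∑ ε : Fin k → Bool, ‖∑ i, (if ε i then (1:ℝ) else -1) • x i‖ ^ 2) / 2 ^ k) ≤ 2 := by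
  rw [Real.sqrt_le_left (by norm_num)]
  rw [div_le_iff₀ (by positivity)]
  have h1 : (∑ ε : Fin k → Bool, ‖∑ i, (if ε i then (1:ℝ) else -1) • x i‖ ^ 2) ≤
      ∑ ε : Fin k → Bool, (2:ℝ) ^ 2 := by
    refine Finset.sum_le_sum fun ε _ => ?_
    have := h (fun i => if ε i then (1:ℝ) else -1) (fun i => by
      by_cases he : ε i <;> simp [he])
    exact pow_le_pow_left₀ (norm_nonneg _) this 2
  refine h1.trans ?_
  simp [mul_comm]

omit [NormedSpace ℝ X] in
theorem lowerq {q : ℝ} (hq : 2 ≤ q)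
    {k : ℕ} (x : Fin k → X) (a : ℝ) (ha : 0 < a) (h : ∀ i, a ≤ ‖x i‖) :
    (k : ℝ) ^ (1/q) * a ≤ (∑ i, ‖x i‖ ^ q) ^ (1/q) := by
  have hq0 : 0 < q := by linarith
  have h1 : (k : ℝ) * a ^ q ≤ ∑ i, ‖x i‖ ^ q := by
    have : ∑ i : Fin k, a ^ q ≤ ∑ i, ‖x i‖ ^ q :=
      Finset.sum_le_sum fun i _ => Real.rpow_le_rpow ha.le (h i) hq0.le
    simpa using this
  have h2 : ((k : ℝ) * a ^ q) ^ (1/q) = (k : ℝ) ^ (1/q) * a := by
    rw [Real.mul_rpow (by positivity) (by positivity), ← Real.rpow_mul ha.le]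
    rw [mul_one_div_cancel hq0.ne', Real.rpow_one]
  rw [← h2]
  exact Real.rpow_le_rpow (by positivity) h1 (by positivity)

/-- The cotype constant of a non-zero space is at least one. -/
theorem one_le_K {q K : ℝ} (hq : 2 ≤ q) (hcot : HasCotype X q K) (x : X) (hx : x ≠ 0) : 1 ≤ K := by
  have hq0 : 0 < q := by linarith
  have hxp : 0 < ‖x‖ := norm_pos_iff.2 hx
  have h := hcot 1 (fun _ => x)
  have h1 : (∑ _i : Fin 1, ‖x‖ ^ q) ^ (1/q) = ‖x‖ := by
    rw [Fin.sum_univ_one, ← Real.rpow_mul hxp.le, mul_one_div_cancel hq0.ne', Real.rpow_one]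
  have h2 : (∑ ε : Fin 1 → Bool, ‖∑ i, (if ε i then (1:ℝ) else -1) • x‖ ^ 2) / 2 ^ 1 =
      ‖x‖ ^ 2 := by
    have h3 : ∀ ε : Fin 1 → Bool, ‖∑ i, (if ε i then (1:ℝ) else -1) • x‖ ^ 2 = ‖x‖ ^ 2 := by
      intro ε
      rw [Fin.sum_univ_one]
      by_cases he : ε 0 <;> simp [he]
    rw [Finset.sum_congr rfl (fun ε _ => h3 ε)]
    simp
  rw [h1, h2, Real.sqrt_sq hxp.le] at h
  by_contra hK
  push Not at hK
  nlinarith

theorem one_le_D {N : ℕ} {D : ℝ} (hemb : EmbedsD X N D) (x : X) (hx : x ≠ 0) : 1 ≤ D := by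
  obtain ⟨T, hT⟩ := hemb
  have hxp : 0 < ‖x‖ := norm_pos_iff.2 hx
  have h := (hT x).1.trans (hT x).2
  by_contra hK
  push Not at hK
  nlinarith

theorem ex_mono {x y : ℝ} (hx : 1 ≤ x) (hxy : x ≤ y) : ex x ≤ ex y := by
  unfold ex
  have h1 : Real.log x ≤ Real.log y := Real.log_le_log (by linarith) hxy
  have h2 : 0 ≤ Real.log x := Real.log_nonneg hx
  exact mul_le_mul (by linarith) (by linarith) (by linarith) (by nlinarith)

theorem exp100 : (1:ℝ) ≤ Real.exp 100 := Real.one_le_exp (by norm_num)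

/-- The constant. -/
noncomputable def AA : ℝ := 12000 * (4 * Real.exp 100)

theorem cotype_part {q K D : ℝ} (hq : 2 ≤ q) [FiniteDimensional ℝ X] {N : ℕ}
    (hn : 2 ≤ Module.finrank ℝ X) (hcot : HasCotype X q K) (hemb : EmbedsD X N D) {A : ℝ}
    (hA : AA ≤ A) :
    Real.exp (Real.exp (-(q * (A * K * D) ^ q * Real.log (A * K * D))) * Module.finrank ℝ X) ≤ N := by
  have he := exp100
  have : Nontrivial X := Module.nontrivial_of_finrank_pos (R := ℝ) (by omega)
  obtain ⟨x0, hx0⟩ := exists_ne (0 : X)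
  have hK := one_le_K hq hcot x0 hx0
  have hD := one_le_D hemb x0 hx0
  have hq0 : 0 < q := by linarith
  obtain ⟨B, hB⟩ : ∃ B : ℝ, B = 4 * Real.exp 100 := ⟨_, rfl⟩
  have hB1 : 4 ≤ B := by rw [hB]; linarith
  have hAB : 12000 * B ≤ A := by rw [hB]; exact hA
  have hKD : 1 ≤ K * D := one_le_mul_of_one_le_of_one_le hK hD
  obtain ⟨z, hz⟩ : ∃ z : ℝ, z = B * K * D := ⟨_, rfl⟩
  have hzB : B ≤ z := by rw [hz, mul_assoc]; nlinarith
  have hz1 : 1 ≤ z := by linarith
  have hz0 : 0 < z := by linarith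
  have hAz : 12000 * z ≤ A * K * D := by
    rw [hz]
    have : 12000 * (B * K * D) = (12000 * B) * (K * D) := by ring
    have h12 : A * K * D = A * (K * D) := by ring
    rw [this, h12]
    exact mul_le_mul_of_nonneg_right hAB (by linarith)
  obtain ⟨y, hy⟩ : ∃ y : ℝ, y = z ^ q := ⟨_, rfl⟩
  have hy1 : 1 ≤ y := by rw [hy]; exact Real.one_le_rpow hz1 hq0.le
  have hlz : 1 ≤ Real.log z := by
    have h1 : Real.log (Real.exp 100) ≤ Real.log z := by
      refine Real.log_le_log (Real.exp_pos _) ?_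
      have : Real.exp 100 ≤ B := by rw [hB]; linarith
      linarith
    rw [Real.log_exp] at h1
    linarith
  by_contra hcon
  push Not at hcon
  obtain ⟨k, hk⟩ : ∃ k : ℕ, k = ⌊y⌋₊ + 1 := ⟨_, rfl⟩
  have hk1 : 1 ≤ k := by omega
  have hk1R : (1:ℝ) ≤ k := by exact_mod_cast hk1
  have hyk : y < k := by rw [hk]; push_cast; exact Nat.lt_floor_add_one y
  have hky : (k:ℝ) ≤ 2 * y := by
    rw [hk]; push_cast
    have := Nat.floor_le (by linarith : 0 ≤ y)
    linarith
  have hex : ex k ≤ q * (A * K * D) ^ q * Real.log (A * K * D) := by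
    have h1 : ex k ≤ ex (2 * y) := ex_mono hk1R hky
    have h2 : ex (2 * y) ≤ 12000 * y * (q * Real.log z) := by
      unfold ex
      have h3 : Real.log (2 * y) = Real.log 2 + q * Real.log z := by
        rw [Real.log_mul (by norm_num) (by linarith), hy, Real.log_rpow hz0]
      rw [h3]
      have h4 : Real.log 2 ≤ 1 := by
        have := Real.log_two_lt_d9
        linarith
      have h5 : 2 ≤ q * Real.log z := by nlinarith
      have h6 : 1 + (Real.log 2 + q * Real.log z) ≤ 2 * (q * Real.log z) := by linarith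
      calc 3000 * (2 * y) * (1 + (Real.log 2 + q * Real.log z)) ≤
          3000 * (2 * y) * (2 * (q * Real.log z)) :=
            mul_le_mul_of_nonneg_left h6 (by linarith)
        _ = 12000 * y * (q * Real.log z) := by ring
    have h7 : 12000 * y ≤ (A * K * D) ^ q := by
      have h8 : (12000 * z) ^ q ≤ (A * K * D) ^ q :=
        Real.rpow_le_rpow (by linarith) hAz hq0.le
      rw [Real.mul_rpow (by norm_num) hz0.le, ← hy] at h8
      have h9 : (12000:ℝ) ≤ 12000 ^ q := by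
        calc (12000:ℝ) = 12000 ^ (1:ℝ) := (Real.rpow_one _).symm
          _ ≤ 12000 ^ q := Real.rpow_le_rpow_of_exponent_le (by norm_num) (by linarith)
      nlinarith
    have h10 : Real.log z ≤ Real.log (A * K * D) := Real.log_le_log hz0 (by linarith)
    calc ex k ≤ 12000 * y * (q * Real.log z) := h1.trans h2
      _ ≤ (A * K * D) ^ q * (q * Real.log (A * K * D)) := by
          refine mul_le_mul h7 (mul_le_mul_of_nonneg_left h10 hq0.le) ?_ (by linarith)
          exact mul_nonneg hq0.le (by linarith)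
      _ = q * (A * K * D) ^ q * Real.log (A * K * D) := by ring
  have hN : (N : ℝ) < Real.exp (Real.exp (-ex k) * Module.finrank ℝ X) := by
    refine hcon.trans_le (Real.exp_le_exp.2 ?_)
    exact mul_le_mul_of_nonneg_right (Real.exp_le_exp.2 (by linarith)) (Nat.cast_nonneg _)
  obtain ⟨s, hs1, hs2⟩ := vectors hk1 (by linarith) hn hemb hN
  have h1 := hcot k s
  have hD0 : 0 < D := by linarith
  have h2 := lowerq hq s (Real.exp (-100) / (2 * D)) (by positivity) hs1
  have h3 := sq_avg s hs2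
  have h4 : (k:ℝ) ^ (1/q) * (Real.exp (-100) / (2 * D)) ≤ K * 2 :=
    (h2.trans h1).trans (mul_le_mul_of_nonneg_left h3 (by linarith))
  have h5 : (k:ℝ) ^ (1/q) ≤ z := by
    have h6 : (k:ℝ) ^ (1/q) * (Real.exp (-100) / (2 * D)) * (2 * D * Real.exp 100) =
        (k:ℝ) ^ (1/q) := by
      rw [Real.exp_neg]
      have := Real.exp_pos 100
      field_simp
    have h7 := mul_le_mul_of_nonneg_right h4 (by positivity : 0 ≤ 2 * D * Real.exp 100)
    rw [h6] at h7
    calc (k:ℝ) ^ (1/q) ≤ K * 2 * (2 * D * Real.exp 100) := h7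
      _ = z := by rw [hz, hB]; ring
  have h8 : (k:ℝ) ≤ y := by
    have h9 := Real.rpow_le_rpow (by positivity) h5 hq0.le
    rw [← Real.rpow_mul (by linarith), one_div_mul_cancel hq0.ne', Real.rpow_one, ← hy] at h9
    exact h9
  linarith

theorem copies_part [FiniteDimensional ℝ X] {k N : ℕ} {D : ℝ} (hk : 1 ≤ k)
    (hn : 2 ≤ Module.finrank ℝ X) (hemb : EmbedsD X N D) {A' A : ℝ}
    (hA' : A' = 34 * Real.exp 100) (hA : 3000 * A' * (1 + Real.log A') ≤ A)
    (hN : (N : ℝ) < Real.exp (Real.exp (-(A * (D * k) * (1 + Real.log (D * k)))) *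
      Module.finrank ℝ X)) :
    ∃ y : Fin k → X, ∀ a : Fin k → ℝ, ‖a‖ ≤ ‖∑ i, a i • y i‖ ∧
      ‖∑ i, a i • y i‖ ≤ 8 * Real.exp 100 * D * ‖a‖ := by
  have he := exp100
  have : Nontrivial X := Module.nontrivial_of_finrank_pos (R := ℝ) (by omega)
  obtain ⟨x0, hx0⟩ := exists_ne (0 : X)
  have hD := one_le_D hemb x0 hx0
  have hkR : (1:ℝ) ≤ k := by exact_mod_cast hk
  have hDk : 1 ≤ D * k := one_le_mul_of_one_le_of_one_le hD hkR
  have hlDk : 0 ≤ Real.log (D * k) := Real.log_nonneg hDk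
  have hA'1 : 1 ≤ A' := by rw [hA']; linarith
  have hlA' : 0 ≤ Real.log A' := Real.log_nonneg hA'1
  obtain ⟨r, hr⟩ : ∃ r : ℕ, r = ⌈16 * Real.exp 100 * D⌉₊ := ⟨_, rfl⟩
  have hr1 : 16 * Real.exp 100 * D ≤ r := by rw [hr]; exact Nat.le_ceil _
  have hrlt : (r:ℝ) ≤ 17 * Real.exp 100 * D := by
    have h1 := (Nat.ceil_lt_add_one (by positivity : 0 ≤ 16 * Real.exp 100 * D)).le
    rw [← hr] at h1
    have h2 : 1 ≤ Real.exp 100 * D := one_le_mul_of_one_le_of_one_le he hD
    nlinarith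
  have hr0 : 1 ≤ r := by
    have : (1:ℝ) ≤ r := by
      have h2 : 1 ≤ Real.exp 100 * D := one_le_mul_of_one_le_of_one_le he hD
      nlinarith
    exact_mod_cast this
  refine copies hk (by linarith) hn hemb hr0 hr1 (hN.trans_le (Real.exp_le_exp.2 ?_))
  refine mul_le_mul_of_nonneg_right (Real.exp_le_exp.2 (neg_le_neg ?_)) (Nat.cast_nonneg _)
  have h1 : ((2 * r * k : ℕ) : ℝ) ≤ A' * (D * k) := by
    push_cast
    rw [hA']
    have : 2 * (r:ℝ) * k ≤ 2 * (17 * Real.exp 100 * D) * k := by gcongr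
    calc 2 * (r:ℝ) * k ≤ 2 * (17 * Real.exp 100 * D) * k := this
      _ = 34 * Real.exp 100 * (D * k) := by ring
  have h2 : (1:ℝ) ≤ ((2 * r * k : ℕ) : ℝ) := by
    have : 1 ≤ 2 * r * k := by
      have : 1 * 1 * 1 ≤ 2 * r * k := Nat.mul_le_mul (Nat.mul_le_mul (by norm_num) hr0) hk
      simpa using this
    exact_mod_cast this
  have h3 := ex_mono h2 h1
  have h4 : ex (A' * (D * k)) ≤ A * (D * k) * (1 + Real.log (D * k)) := by
    unfold ex
    rw [Real.log_mul (by linarith) (by linarith)]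
    have h5 : 1 + (Real.log A' + Real.log (D * k)) ≤ (1 + Real.log A') * (1 + Real.log (D * k)) := by
      nlinarith
    calc 3000 * (A' * (D * k)) * (1 + (Real.log A' + Real.log (D * k))) ≤
        3000 * (A' * (D * k)) * ((1 + Real.log A') * (1 + Real.log (D * k))) :=
          mul_le_mul_of_nonneg_left h5 (by positivity)
      _ = 3000 * A' * (1 + Real.log A') * ((D * k) * (1 + Real.log (D * k))) := by ring
      _ ≤ A * ((D * k) * (1 + Real.log (D * k))) :=
          mul_le_mul_of_nonneg_right hA (by positivity)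
      _ = A * (D * k) * (1 + Real.log (D * k)) := by ring
  exact h3.trans h4

end Pool.Agent.Y995.ST1
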