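import Mathlib

/-!
Selection of vectors with small interaction.
-/

set_option autoImplicit false

namespace Pool.Agent.Y995.ST1

open Finset

/-- A colouring with few monochromatic interactions. -/
theorem part {ι : Type*} [DecidableEq ι] (a : ι → ι → ℝ) (ha : ∀ i j, 0 ≤ a i j) (r : ℕ)
    (hr : 1 ≤ r) (S : Finset ι) : ∃ χ : ι → Fin r,
    (r : ℝ) * ∑ i ∈ S, ∑ j ∈ S, (if i ≠ j ∧ χ i = χ j then a i j else 0) ≤
      ∑ i ∈ S, ∑ j ∈ S, (if i ≠ j then a i j else 0) := by
  induction S using Finset.induction_on with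
  | empty => exact ⟨fun _ => ⟨0, hr⟩, by simp⟩
  | insert v S hv ih =>
    obtain ⟨χ, hχ⟩ := ih
    -- the best colour for `v`
    obtain ⟨c, hc⟩ : ∃ c : Fin r, (r : ℝ) * ∑ j ∈ S, (if χ j = c then a v j + a j v else 0) ≤
        ∑ j ∈ S, (a v j + a j v) := by
      by_contra hcon
      push Not at hcon
      have h1 : ∑ c : Fin r, ∑ j ∈ S, (a v j + a j v) <
          ∑ c : Fin r, (r : ℝ) * ∑ j ∈ S, (if χ j = c then a v j + a j v else 0) :=
        Finset.sum_lt_sum_of_nonempty ⟨⟨0, hr⟩, Finset.mem_univ _⟩ (fun c _ => hcon c)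
      have h2 : ∀ j ∈ S, ∑ c : Fin r, (if χ j = c then a v j + a j v else 0) = a v j + a j v := by
        intro j _
        rw [Finset.sum_ite_eq, if_pos (Finset.mem_univ _)]
      have h3 : ∑ c : Fin r, ∑ j ∈ S, (if χ j = c then a v j + a j v else 0) =
          ∑ j ∈ S, (a v j + a j v) := by
        rw [Finset.sum_comm]
        exact Finset.sum_congr rfl h2
      rw [← Finset.mul_sum, h3, Finset.sum_const, Finset.card_univ,
        Fintype.card_fin, nsmul_eq_mul] at h1
      exact lt_irrefl _ h1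
    refine ⟨Function.update χ v c, ?_⟩
    have hne : ∀ j ∈ S, j ≠ v := fun j hj h => hv (h ▸ hj)
    have hup : ∀ j ∈ S, Function.update χ v c j = χ j := fun j hj =>
      Function.update_of_ne (hne j hj) _ _
    have hupv : Function.update χ v c v = c := Function.update_self _ _ _
    -- the sums over `insert v S`
    have e1 : ∑ i ∈ insert v S, ∑ j ∈ insert v S, (if i ≠ j ∧ Function.update χ v c i =
        Function.update χ v c j then a i j else 0) =
        ∑ i ∈ S, ∑ j ∈ S, (if i ≠ j ∧ χ i = χ j then a i j else 0) +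
          ∑ j ∈ S, (if χ j = c then a v j + a j v else 0) := by
      rw [Finset.sum_insert hv, Finset.sum_insert hv]
      rw [if_neg (by simp)]
      have g1 : ∑ j ∈ S, (if v ≠ j ∧ Function.update χ v c v = Function.update χ v c j
          then a v j else 0) = ∑ j ∈ S, (if χ j = c then a v j else 0) := by
        refine Finset.sum_congr rfl (fun j hj => ?_)
        rw [hupv, hup j hj]
        by_cases h : χ j = c
        · rw [if_pos ⟨(hne j hj).symm, h.symm⟩, if_pos h]
        · rw [if_neg (fun h' => h h'.2.symm), if_neg h]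
      have g2 : ∑ i ∈ S, ∑ j ∈ insert v S, (if i ≠ j ∧ Function.update χ v c i =
          Function.update χ v c j then a i j else 0) =
          ∑ i ∈ S, ∑ j ∈ S, (if i ≠ j ∧ χ i = χ j then a i j else 0) +
          ∑ i ∈ S, (if χ i = c then a i v else 0) := by
        rw [← Finset.sum_add_distrib]
        refine Finset.sum_congr rfl (fun i hi => ?_)
        rw [Finset.sum_insert hv, hupv, hup i hi, add_comm]
        congr 1
        · refine Finset.sum_congr rfl (fun j hj => ?_)
          rw [hup j hj]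
        · by_cases h : χ i = c
          · rw [if_pos ⟨hne i hi, h⟩, if_pos h]
          · rw [if_neg (fun h' => h h'.2), if_neg h]
      rw [g1, g2]
      have g3 : ∑ j ∈ S, (if χ j = c then a v j + a j v else 0) =
          ∑ j ∈ S, (if χ j = c then a v j else 0) + ∑ i ∈ S, (if χ i = c then a i v else 0) := by
        rw [← Finset.sum_add_distrib]
        refine Finset.sum_congr rfl (fun j _ => ?_)
        by_cases h : χ j = c
        · rw [if_pos h, if_pos h, if_pos h]
        · rw [if_neg h, if_neg h, if_neg h, add_zero]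
      rw [g3]
      ring
    have e2 : ∑ i ∈ insert v S, ∑ j ∈ insert v S, (if i ≠ j then a i j else 0) =
        ∑ i ∈ S, ∑ j ∈ S, (if i ≠ j then a i j else 0) + ∑ j ∈ S, (a v j + a j v) := by
      rw [Finset.sum_insert hv, Finset.sum_insert hv]
      rw [if_neg (by simp)]
      have g1 : ∑ j ∈ S, (if v ≠ j then a v j else 0) = ∑ j ∈ S, a v j :=
        Finset.sum_congr rfl (fun j hj => if_pos (hne j hj).symm)
      have g2 : ∑ i ∈ S, ∑ j ∈ insert v S, (if i ≠ j then a i j else 0) =
          ∑ i ∈ S, ∑ j ∈ S, (if i ≠ j then a i j else 0) + ∑ i ∈ S, a i v := by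
        rw [← Finset.sum_add_distrib]
        refine Finset.sum_congr rfl (fun i hi => ?_)
        rw [Finset.sum_insert hv, if_pos (hne i hi), add_comm]
      rw [g1, g2, Finset.sum_add_distrib]
      ring
    rw [e1, e2, mul_add]
    exact add_le_add hχ hc

/-- A large subset with small interactions. -/
theorem select {r k : ℕ} (hr : 1 ≤ r) (a : Fin (2 * r * k) → Fin (2 * r * k) → ℝ)
    (ha : ∀ i j, 0 ≤ a i j) {M : ℝ} (hM : 0 < M) (hrow : ∀ i, ∑ j, a i j ≤ M) :
    ∃ e : Fin k → Fin (2 * r * k), Function.Injective e ∧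
      ∀ i, ∑ j ∈ Finset.univ.erase i, a (e i) (e j) ≤ 2 * M / r := by
  classical
  have hr0 : (0 : ℝ) < r := by exact_mod_cast hr
  obtain ⟨χ, hχ⟩ := part a ha r hr Finset.univ
  set R : Fin (2 * r * k) → ℝ := fun i => ∑ j, (if i ≠ j ∧ χ i = χ j then a i j else 0) with hR
  have hR0 : ∀ i, 0 ≤ R i := fun i => Finset.sum_nonneg (fun j _ => by
    split_ifs
    · exact ha i j
    · exact le_rfl)
  have hsum : (r : ℝ) * ∑ i, R i ≤ (2 * r * k : ℕ) * M := by
    refine hχ.trans ?_
    calc ∑ i, ∑ j, (if i ≠ j then a i j else 0) ≤ ∑ i : Fin (2 * r * k), M := by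
          refine Finset.sum_le_sum (fun i _ => le_trans (Finset.sum_le_sum (fun j _ => ?_)) (hrow i))
          split_ifs
          · exact le_rfl
          · exact ha i j
      _ = (2 * r * k : ℕ) * M := by
          rw [Finset.sum_const, Finset.card_univ, Fintype.card_fin, nsmul_eq_mul]
  set good : Finset (Fin (2 * r * k)) := Finset.univ.filter (fun i => R i ≤ 2 * M / r) with hgood
  have hbad : ((Finset.univ.filter (fun i => ¬ R i ≤ 2 * M / r)).card : ℝ) * (2 * M / r) ≤
      ∑ i, R i := by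
    calc ((Finset.univ.filter (fun i => ¬ R i ≤ 2 * M / r)).card : ℝ) * (2 * M / r)
        = ∑ i ∈ Finset.univ.filter (fun i => ¬ R i ≤ 2 * M / r), (2 * M / r) := by
          rw [Finset.sum_const, nsmul_eq_mul]
      _ ≤ ∑ i ∈ Finset.univ.filter (fun i => ¬ R i ≤ 2 * M / r), R i :=
          Finset.sum_le_sum (fun i hi => (not_le.1 (Finset.mem_filter.1 hi).2).le)
      _ ≤ ∑ i, R i := Finset.sum_le_sum_of_subset_of_nonneg (Finset.filter_subset _ _)
          (fun i _ _ => hR0 i)
  have hcard : good.card + (Finset.univ.filter (fun i => ¬ R i ≤ 2 * M / r)).card = 2 * r * k := by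
    rw [hgood, Finset.card_filter_add_card_filter_not, Finset.card_univ, Fintype.card_fin]
  have hg : r * k ≤ good.card := by
    have h1 : (r : ℝ) * (((Finset.univ.filter (fun i => ¬ R i ≤ 2 * M / r)).card : ℝ) *
        (2 * M / r)) ≤ (2 * r * k : ℕ) * M :=
      (mul_le_mul_of_nonneg_left hbad hr0.le).trans hsum
    have h2 : (r : ℝ) * (((Finset.univ.filter (fun i => ¬ R i ≤ 2 * M / r)).card : ℝ) *
        (2 * M / r)) = 2 * ((Finset.univ.filter (fun i => ¬ R i ≤ 2 * M / r)).card : ℝ) * M := by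
      field_simp
    rw [h2] at h1
    have h3 := le_of_mul_le_mul_right h1 hM
    have h4 : 2 * (Finset.univ.filter (fun i => ¬ R i ≤ 2 * M / r)).card ≤ 2 * r * k := by
      exact_mod_cast h3
    have h5 : 2 * r * k = 2 * (r * k) := by ring
    omega
  obtain ⟨c, -, hc⟩ := Finset.exists_le_card_fiber_of_mul_le_card_of_maps_to
    (s := good) (t := (Finset.univ : Finset (Fin r))) (f := χ) (n := k)
    (fun i _ => Finset.mem_univ _) ⟨⟨0, hr⟩, Finset.mem_univ _⟩ (by
      rw [Finset.card_univ, Fintype.card_fin]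
      exact hg)
  obtain ⟨t, ht1, ht2⟩ := Finset.exists_subset_card_eq hc
  refine ⟨t.orderEmbOfFin ht2, (t.orderEmbOfFin ht2).injective, fun i => ?_⟩
  have hmem : ∀ j, t.orderEmbOfFin ht2 j ∈ t := fun j => Finset.orderEmbOfFin_mem _ _ _
  have hcol : ∀ j, χ (t.orderEmbOfFin ht2 j) = c := fun j => (Finset.mem_filter.1 (ht1 (hmem j))).2
  have hgi : R (t.orderEmbOfFin ht2 i) ≤ 2 * M / r :=
    (Finset.mem_filter.1 (Finset.mem_filter.1 (ht1 (hmem i))).1).2
  refine le_trans ?_ hgi
  have h1 : ∑ j ∈ Finset.univ.erase i, a (t.orderEmbOfFin ht2 i) (t.orderEmbOfFin ht2 j) =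
      ∑ x ∈ (Finset.univ.erase i).image (t.orderEmbOfFin ht2), a (t.orderEmbOfFin ht2 i) x := by
    rw [Finset.sum_image]
    intro x _ y _ h
    exact (t.orderEmbOfFin ht2).injective h
  rw [h1]
  have h2 : ∑ x ∈ (Finset.univ.erase i).image (t.orderEmbOfFin ht2),
      a (t.orderEmbOfFin ht2 i) x =
      ∑ x ∈ (Finset.univ.erase i).image (t.orderEmbOfFin ht2),
      (if t.orderEmbOfFin ht2 i ≠ x ∧ χ (t.orderEmbOfFin ht2 i) = χ x
        then a (t.orderEmbOfFin ht2 i) x else 0) := by
    refine Finset.sum_congr rfl (fun x hx => ?_)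
    obtain ⟨j, hj, rfl⟩ := Finset.mem_image.1 hx
    rw [if_pos]
    refine ⟨fun h => ?_, by rw [hcol, hcol]⟩
    exact (Finset.mem_erase.1 hj).1 ((t.orderEmbOfFin ht2).injective h).symm
  rw [h2]
  exact Finset.sum_le_sum_of_subset_of_nonneg (Finset.subset_univ _) (fun x _ _ => by
    split_ifs
    · exact ha _ _
    · exact le_rfl)

end Pool.Agent.Y995.ST1
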