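import Pool.Agent.Y995.ST1.Num
import Pool.Agent.Y995.ST1.Sel

/-!
Copies of `ℓ_∞^k` in spaces which embed into `ℓ_∞^N`, and cotype.
-/

set_option autoImplicit false
set_option maxHeartbeats 1000000

namespace Pool.Agent.Y995.ST1

open Pool.Agent.PZ871
open MeasureTheory Set
open scoped RealInnerProductSpace ENNReal

/-- Rademacher cotype `q` with constant `K` -/
def HasCotype (X : Type) [NormedAddCommGroup X] [NormedSpace ℝ X] (q K : ℝ) : Prop :=
  ∀ (m : ℕ) (x : Fin m → X),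
    (∑ i, ‖x i‖ ^ q) ^ (1/q) ≤
      K * Real.sqrt ((∑ ε : Fin m → Bool, ‖∑ i, (if ε i then (1:ℝ) else -1) • x i‖ ^ 2) / 2 ^ m)

/-- `X` embeds into `ℓ_∞^N` with distortion `D`. -/
def EmbedsD (X : Type) [NormedAddCommGroup X] [NormedSpace ℝ X] (N : ℕ) (D : ℝ) : Prop :=
  ∃ T : X →ₗ[ℝ] (Fin N → ℝ), ∀ x, ‖x‖ ≤ ‖T x‖ ∧ ‖T x‖ ≤ D * ‖x‖

variable {X : Type} [NormedAddCommGroup X] [NormedSpace ℝ X]

theorem body_of {n N : ℕ} {D : ℝ} (hD : 0 < D)
    (T : X →ₗ[ℝ] (Fin N → ℝ)) (hT : ∀ x, ‖x‖ ≤ ‖T x‖ ∧ ‖T x‖ ≤ D * ‖x‖)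
    (φ : E n ≃L[ℝ] X) (f : Fin N → (E n →L[ℝ] ℝ)) (hf : ∀ j x, f j x = T (φ x) j) :
    Body n {x : E n | ∀ j, |f j x| ≤ 1} := by
  refine ⟨?_, ?_, ?_, ?_⟩
  · refine Metric.isCompact_of_isClosed_isBounded ?_ ?_
    · rw [Set.setOf_forall]
      exact isClosed_iInter fun j =>
        isClosed_le (continuous_abs.comp (f j).continuous) continuous_const
    · refine (Metric.isBounded_closedBall (x := (0 : E n))
        (r := ‖(φ.symm : X →L[ℝ] E n)‖)).subset ?_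
      intro x hx
      rw [mem_closedBall_zero_iff]
      have h1 : ‖T (φ x)‖ ≤ 1 := by
        rw [pi_norm_le_iff_of_nonneg zero_le_one]
        intro j
        have := hx j
        rw [hf j x] at this
        exact this
      have h2 : ‖φ x‖ ≤ 1 := (hT _).1.trans h1
      have h3 : ‖φ.symm (φ x)‖ ≤ ‖(φ.symm : X →L[ℝ] E n)‖ * ‖φ x‖ :=
        (φ.symm : X →L[ℝ] E n).le_opNorm (φ x)
      rw [φ.symm_apply_apply] at h3
      calc ‖x‖ ≤ ‖(φ.symm : X →L[ℝ] E n)‖ * ‖φ x‖ := h3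
        _ ≤ ‖(φ.symm : X →L[ℝ] E n)‖ * 1 := by gcongr
        _ = _ := mul_one _
  · intro x hx y hy a b ha hb hab j
    have h1 := hx j
    have h2 := hy j
    rw [map_add, map_smul, map_smul, smul_eq_mul, smul_eq_mul]
    rw [abs_le] at h1 h2 ⊢
    constructor
    · nlinarith [h1.1, h2.1]
    · nlinarith [h1.2, h2.2]
  · intro x hx j
    have := hx j
    rwa [map_neg, abs_neg]
  · refine ⟨1 / (D * ‖(φ : E n →L[ℝ] X)‖ + 1), by positivity, ?_⟩
    intro x hx j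
    rw [mem_ball_zero_iff] at hx
    have hp : 0 < D * ‖(φ : E n →L[ℝ] X)‖ + 1 := by positivity
    rw [lt_div_iff₀ hp] at hx
    have h1 : ‖T (φ x) j‖ ≤ ‖T (φ x)‖ := norm_le_pi_norm _ j
    have h2 := (hT (φ x)).2
    have h3 : ‖φ x‖ ≤ ‖(φ : E n →L[ℝ] X)‖ * ‖x‖ := (φ : E n →L[ℝ] X).le_opNorm x
    have h4 : D * ‖φ x‖ ≤ D * (‖(φ : E n →L[ℝ] X)‖ * ‖x‖) := mul_le_mul_of_nonneg_left h3 hD.le
    rw [hf j x]
    rw [Real.norm_eq_abs] at h1
    nlinarith [norm_nonneg x]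

/-- Vectors with an upper `ℓ_∞` estimate. -/
theorem vectors [FiniteDimensional ℝ X] {k N : ℕ} {D : ℝ} (hk : 1 ≤ k) (hD : 0 < D)
    (hn : 2 ≤ Module.finrank ℝ X) (hemb : EmbedsD X N D)
    (hN : (N : ℝ) < Real.exp (Real.exp (-ex k) * Module.finrank ℝ X)) :
    ∃ s : Fin k → X, (∀ i, Real.exp (-100) / (2 * D) ≤ ‖s i‖) ∧
      ∀ ε : Fin k → ℝ, (∀ i, ε i = 1 ∨ ε i = -1) → ‖∑ i, ε i • s i‖ ≤ 2 := by
  obtain ⟨hc1, hc2⟩ := num hk
  obtain ⟨T, hT⟩ := hemb
  have hinj : Function.Injective T := by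
    rw [injective_iff_map_eq_zero]
    intro x hx
    have := (hT x).1
    rw [hx, norm_zero] at this
    exact norm_le_zero_iff.1 this
  have hnN : Module.finrank ℝ X ≤ N := by
    have := LinearMap.finrank_le_finrank_of_injective hinj
    simpa using this
  set n := Module.finrank ℝ X with hndef
  set n0 := max (2 * k + 1) ⌈12 / rho k⌉₊ with hn0
  have hn0n : n0 ≤ n := by
    by_contra hcon
    push Not at hcon
    have h1 : (n : ℝ) ≤ (n0 : ℝ) + 1 := by
      have : (n : ℝ) ≤ n0 := by exact_mod_cast hcon.le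
      linarith
    have h2 : Real.exp (-ex k) * n ≤ Real.log 2 :=
      (mul_le_mul_of_nonneg_left h1 (Real.exp_nonneg _)).trans hc2
    have h3 : (N : ℝ) < 2 := by
      refine hN.trans_le ?_
      calc Real.exp (Real.exp (-ex k) * n) ≤ Real.exp (Real.log 2) := Real.exp_le_exp.2 h2
        _ = 2 := Real.exp_log (by norm_num)
    have h4 : (2:ℝ) ≤ N := by exact_mod_cast hn.trans hnN
    linarith
  have hNδ : (N : ℝ) ≤ Real.exp (min (rho k / 4) (1 / k) * n) := by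
    refine hN.le.trans (Real.exp_le_exp.2 ?_)
    exact mul_le_mul_of_nonneg_right hc1 (Nat.cast_nonneg n)
  have hfr : Module.finrank ℝ (E n) = Module.finrank ℝ X := by
    rw [finrank_euclideanSpace_fin]
  let φ : E n ≃L[ℝ] X := ContinuousLinearEquiv.ofFinrankEq hfr
  let f : Fin N → (E n →L[ℝ] ℝ) := fun j =>
    LinearMap.toContinuousLinearMap
      ((LinearMap.proj j : (Fin N → ℝ) →ₗ[ℝ] ℝ).comp
        (T.comp ((φ : E n →L[ℝ] X) : E n →ₗ[ℝ] X)))
  have hf : ∀ j x, f j x = T (φ x) j := fun j x => rfl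
  obtain ⟨s, hs1, hs2⟩ := core_exp k hk n N hn0n hNδ f (body_of hD T hT φ f hf)
  refine ⟨fun i => φ (s i), fun i => ?_, fun ε hε => ?_⟩
  · obtain ⟨j, hj⟩ := hs1 i
    rw [hf] at hj
    have h1 : ‖T (φ (s i)) j‖ ≤ ‖T (φ (s i))‖ := norm_le_pi_norm _ j
    have h2 := (hT (φ (s i))).2
    rw [Real.norm_eq_abs] at h1
    have h3 := le_abs_self (T (φ (s i)) j)
    rw [div_le_iff₀ (by positivity)]
    linarith
  · have h0 : ∑ i, ε i • φ (s i) = φ (∑ i, ε i • s i) := by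
      rw [map_sum]
      refine Finset.sum_congr rfl fun i _ => ?_
      rw [map_smul]
    rw [h0]
    refine (hT _).1.trans ?_
    rw [pi_norm_le_iff_of_nonneg (by norm_num)]
    intro j
    have := hs2 ε hε j
    rw [hf] at this
    exact this

/-- Row sums of functionals. -/
theorem row_le {l : ℕ} {s : Fin l → X} {M : ℝ}
    (h : ∀ ε : Fin l → ℝ, (∀ i, ε i = 1 ∨ ε i = -1) → ‖∑ i, ε i • s i‖ ≤ M)
    (g : X →L[ℝ] ℝ) (hg : ‖g‖ ≤ 1) : ∑ i, |g (s i)| ≤ M := by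
  set ε : Fin l → ℝ := fun i => if 0 ≤ g (s i) then 1 else -1 with hε
  have h1 : ∑ i, |g (s i)| = g (∑ i, ε i • s i) := by
    rw [map_sum]
    refine Finset.sum_congr rfl (fun i _ => ?_)
    rw [map_smul, smul_eq_mul, hε]
    by_cases h : 0 ≤ g (s i)
    · simp only [if_pos h, one_mul, abs_of_nonneg h]
    · simp only [if_neg h, abs_of_neg (not_le.1 h)]
      ring
  rw [h1]
  have h2 := h ε (fun i => by
    rw [hε]
    by_cases h : 0 ≤ g (s i)
    · simp only [if_pos h]; exact Or.inl trivial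
    · simp only [if_neg h]; exact Or.inr trivial)
  calc g (∑ i, ε i • s i) ≤ ‖g (∑ i, ε i • s i)‖ := Real.le_norm_self _
    _ ≤ ‖g‖ * ‖∑ i, ε i • s i‖ := g.le_opNorm _
    _ ≤ 1 * M := mul_le_mul hg h2 (norm_nonneg _) zero_le_one
    _ = M := one_mul _

/-- Upper estimate for all coefficients. -/
theorem upper_all {l : ℕ} {s : Fin l → X} {M : ℝ}
    (h : ∀ ε : Fin l → ℝ, (∀ i, ε i = 1 ∨ ε i = -1) → ‖∑ i, ε i • s i‖ ≤ M)
    (a : Fin l → ℝ) : ‖∑ i, a i • s i‖ ≤ M * ‖a‖ := by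
  obtain ⟨g, hg1, hg2⟩ := exists_dual_vector'' ℝ (∑ i, a i • s i)
  have h1 : ‖∑ i, a i • s i‖ = ∑ i, a i * g (s i) := by
    have h2 : g (∑ i, a i • s i) = ‖∑ i, a i • s i‖ := by simpa using hg2
    rw [← h2, map_sum]
    refine Finset.sum_congr rfl (fun i _ => ?_)
    rw [map_smul, smul_eq_mul]
  rw [h1]
  calc ∑ i, a i * g (s i) ≤ ∑ i, ‖a‖ * |g (s i)| := by
        refine Finset.sum_le_sum (fun i _ => ?_)
        calc a i * g (s i) ≤ |a i * g (s i)| := le_abs_self _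
          _ = |a i| * |g (s i)| := abs_mul _ _
          _ ≤ ‖a‖ * |g (s i)| := mul_le_mul_of_nonneg_right (norm_le_pi_norm a i) (abs_nonneg _)
    _ = ‖a‖ * ∑ i, |g (s i)| := (Finset.mul_sum _ _ _).symm
    _ ≤ ‖a‖ * M := mul_le_mul_of_nonneg_left (row_le h g hg1) (norm_nonneg _)
    _ = M * ‖a‖ := mul_comm _ _

/-- Copies of `ℓ_∞^k`. -/
theorem copies [FiniteDimensional ℝ X] {k N : ℕ} {D : ℝ} (hk : 1 ≤ k) (hD : 0 < D)
    (hn : 2 ≤ Module.finrank ℝ X) (hemb : EmbedsD X N D) {r : ℕ} (hr1 : 1 ≤ r)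
    (hr : 16 * Real.exp 100 * D ≤ r)
    (hN : (N : ℝ) < Real.exp (Real.exp (-ex (2 * r * k : ℕ)) * Module.finrank ℝ X)) :
    ∃ y : Fin k → X, ∀ a : Fin k → ℝ, ‖a‖ ≤ ‖∑ i, a i • y i‖ ∧
      ‖∑ i, a i • y i‖ ≤ 8 * Real.exp 100 * D * ‖a‖ := by
  obtain ⟨s, hs1, hs2⟩ := vectors (k := 2 * r * k) (by
    have : 1 * 1 * 1 ≤ 2 * r * k := Nat.mul_le_mul (Nat.mul_le_mul (by norm_num) hr1) hk
    simpa using this) hD hn hemb hN
  obtain ⟨c1, hc1⟩ : ∃ c1 : ℝ, c1 = Real.exp (-100) / (2 * D) := ⟨_, rfl⟩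
  have hc0 : 0 < c1 := by rw [hc1]; positivity
  rw [← hc1] at hs1
  have hg : ∀ i, ∃ g : X →L[ℝ] ℝ, ‖g‖ ≤ 1 ∧ g (s i) = ‖s i‖ := fun i => by
    obtain ⟨g, h1, h2⟩ := exists_dual_vector'' ℝ (s i)
    exact ⟨g, h1, by simpa using h2⟩
  choose g hg1 hg2 using hg
  obtain ⟨e, he, hsel⟩ := select (r := r) (k := k) hr1 (fun i j => |g i (s j)|)
    (fun i j => abs_nonneg _) (M := 2) (by norm_num) (fun i => row_le hs2 (g i) (hg1 i))
  have hr0 : (0:ℝ) < r := by exact_mod_cast hr1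
  have h4r : 2 * 2 / (r : ℝ) ≤ c1 / 2 := by
    rw [div_le_iff₀ hr0, hc1, Real.exp_neg]
    have h1 : (Real.exp 100)⁻¹ / (2 * D) / 2 * (16 * Real.exp 100 * D) ≤
        (Real.exp 100)⁻¹ / (2 * D) / 2 * r := mul_le_mul_of_nonneg_left hr (by positivity)
    have h2 : (Real.exp 100)⁻¹ / (2 * D) / 2 * (16 * Real.exp 100 * D) = 4 := by
      have := Real.exp_pos 100
      field_simp
      norm_num
    linarith
  -- the two estimates for `s ∘ e`
  have hup : ∀ a : Fin k → ℝ, ‖∑ i, a i • s (e i)‖ ≤ 2 * ‖a‖ := by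
    intro a
    set b : Fin (2 * r * k) → ℝ := fun x => ∑ i, if e i = x then a i else 0 with hb
    have h1 : ∑ x, b x • s x = ∑ i, a i • s (e i) := by
      simp only [hb, Finset.sum_smul]
      rw [Finset.sum_comm]
      refine Finset.sum_congr rfl (fun i _ => ?_)
      rw [Finset.sum_eq_single (e i)]
      · rw [if_pos rfl]
      · intro x _ hx
        rw [if_neg (Ne.symm hx), zero_smul]
      · intro h
        exact absurd (Finset.mem_univ _) h
    have h2 : ‖b‖ ≤ ‖a‖ := by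
      rw [pi_norm_le_iff_of_nonneg (norm_nonneg _)]
      intro x
      by_cases hx : ∃ i, e i = x
      · obtain ⟨i, rfl⟩ := hx
        have h3 : b (e i) = a i := by
          simp only [hb]
          rw [Finset.sum_eq_single i]
          · rw [if_pos rfl]
          · intro j _ hj
            rw [if_neg (fun h => hj (he h))]
          · intro h
            exact absurd (Finset.mem_univ _) h
        rw [h3]
        exact norm_le_pi_norm a i
      · have h3 : b x = 0 := by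
          simp only [hb]
          refine Finset.sum_eq_zero (fun i _ => if_neg (fun h => hx ⟨i, h⟩))
        rw [h3, norm_zero]
        exact norm_nonneg _
    rw [← h1]
    exact (upper_all hs2 b).trans (mul_le_mul_of_nonneg_left h2 (by norm_num))
  have hlo : ∀ a : Fin k → ℝ, c1 / 2 * ‖a‖ ≤ ‖∑ i, a i • s (e i)‖ := by
    intro a
    haveI : Nonempty (Fin k) := ⟨⟨0, hk⟩⟩
    obtain ⟨i, hi⟩ : ∃ i, ‖a‖ = |a i| := by
      obtain ⟨i, -, hi⟩ := Finset.exists_max_image (Finset.univ : Finset (Fin k)) (fun i => |a i|)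
        Finset.univ_nonempty
      refine ⟨i, le_antisymm ?_ (norm_le_pi_norm a i)⟩
      rw [pi_norm_le_iff_of_nonneg (abs_nonneg _)]
      exact fun j => hi j (Finset.mem_univ j)
    have h1 : |g (e i) (∑ j, a j • s (e j))| ≤ ‖∑ j, a j • s (e j)‖ := by
      calc |g (e i) (∑ j, a j • s (e j))| = ‖g (e i) (∑ j, a j • s (e j))‖ := rfl
        _ ≤ ‖g (e i)‖ * ‖∑ j, a j • s (e j)‖ := (g (e i)).le_opNorm _
        _ ≤ 1 * ‖∑ j, a j • s (e j)‖ := mul_le_mul_of_nonneg_right (hg1 _) (norm_nonneg _)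
        _ = _ := one_mul _
    have h2 : g (e i) (∑ j, a j • s (e j)) = a i * ‖s (e i)‖ +
        ∑ j ∈ Finset.univ.erase i, a j * g (e i) (s (e j)) := by
      rw [map_sum, ← Finset.add_sum_erase _ _ (Finset.mem_univ i)]
      congr 1
      · rw [map_smul, smul_eq_mul, hg2]
      · refine Finset.sum_congr rfl (fun j _ => ?_)
        rw [map_smul, smul_eq_mul]
    have h3 : |∑ j ∈ Finset.univ.erase i, a j * g (e i) (s (e j))| ≤ ‖a‖ * (c1 / 2) := by
      calc |∑ j ∈ Finset.univ.erase i, a j * g (e i) (s (e j))|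
          ≤ ∑ j ∈ Finset.univ.erase i, |a j * g (e i) (s (e j))| := Finset.abs_sum_le_sum_abs _ _
        _ ≤ ∑ j ∈ Finset.univ.erase i, ‖a‖ * |g (e i) (s (e j))| := by
            refine Finset.sum_le_sum (fun j _ => ?_)
            rw [abs_mul]
            exact mul_le_mul_of_nonneg_right (norm_le_pi_norm a j) (abs_nonneg _)
        _ = ‖a‖ * ∑ j ∈ Finset.univ.erase i, |g (e i) (s (e j))| := (Finset.mul_sum _ _ _).symm
        _ ≤ ‖a‖ * (c1 / 2) := mul_le_mul_of_nonneg_left ((hsel i).trans h4r) (norm_nonneg _)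
    rw [h2] at h1
    have h4 : |a i| * c1 ≤ |a i * ‖s (e i)‖| := by
      rw [abs_mul, abs_of_nonneg (norm_nonneg _)]
      exact mul_le_mul_of_nonneg_left (hs1 _) (abs_nonneg _)
    have h5 : |a i * ‖s (e i)‖| ≤ |a i * ‖s (e i)‖ +
        ∑ j ∈ Finset.univ.erase i, a j * g (e i) (s (e j))| +
        |∑ j ∈ Finset.univ.erase i, a j * g (e i) (s (e j))| := by
      have := abs_sub (a i * ‖s (e i)‖ + ∑ j ∈ Finset.univ.erase i, a j * g (e i) (s (e j)))
        (∑ j ∈ Finset.univ.erase i, a j * g (e i) (s (e j)))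
      rwa [add_sub_cancel_right] at this
    rw [hi] at h3 ⊢
    linarith
  -- normalisation
  refine ⟨fun i => (2 / c1) • s (e i), fun a => ?_⟩
  have hn2 : ∑ i, a i • ((2 / c1) • s (e i)) = (2 / c1) • ∑ i, a i • s (e i) := by
    rw [Finset.smul_sum]
    refine Finset.sum_congr rfl (fun i _ => ?_)
    rw [smul_comm]
  have h2c : 0 < 2 / c1 := by positivity
  rw [hn2, norm_smul, Real.norm_of_nonneg h2c.le]
  constructor
  · have h1 := mul_le_mul_of_nonneg_left (hlo a) h2c.le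
    have h2 : 2 / c1 * (c1 / 2 * ‖a‖) = ‖a‖ := by field_simp
    linarith
  · have h1 := mul_le_mul_of_nonneg_left (hup a) h2c.le
    have h2 : 2 / c1 * (2 * ‖a‖) = 8 * Real.exp 100 * D * ‖a‖ := by
      rw [hc1, Real.exp_neg]
      have := Real.exp_pos 100
      field_simp
      ring
    linarith

end Pool.Agent.Y995.ST1
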