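import Pool.Agent.Y995.ST1.Core

/-!
Numerical bounds for the constants.
-/

set_option autoImplicit false

namespace Pool.Agent.Y995.ST1

/-- The exponent `3000 x (1 + log x)`. -/
noncomputable def ex (x : ℝ) : ℝ := 3000 * x * (1 + Real.log x)

theorem e3 : (8 : ℝ) ≤ Real.exp 3 := by
  have h := Real.exp_one_gt_d9
  have h1 : Real.exp 3 = Real.exp 1 ^ 3 := by rw [← Real.exp_nat_mul]; norm_num
  rw [h1]
  have h2 : (2:ℝ) ^ 3 ≤ Real.exp 1 ^ 3 := pow_le_pow_left₀ (by norm_num) (by linarith) 3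
  linarith

theorem e4 : (16 : ℝ) ≤ Real.exp 4 := by
  have h := Real.exp_one_gt_d9
  have h1 : Real.exp 4 = Real.exp 1 ^ 4 := by rw [← Real.exp_nat_mul]; norm_num
  rw [h1]
  have h2 : (2:ℝ) ^ 4 ≤ Real.exp 1 ^ 4 := pow_le_pow_left₀ (by norm_num) (by linarith) 4
  linarith

theorem x_le_exp (x : ℝ) : x ≤ Real.exp x := by
  have := Real.add_one_le_exp x
  linarith

/-- lower bound for `rho` -/
theorem rho_ge {k : ℕ} (hk : 1 ≤ k) :
    Real.exp (-(2950 * k * (1 + Real.log k))) ≤ rho k := by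
  have hkR : (1:ℝ) ≤ k := by exact_mod_cast hk
  have hk0 : (0:ℝ) < k := by linarith
  have hl : 0 ≤ Real.log k := Real.log_nonneg hkR
  obtain ⟨L, hL⟩ : ∃ L : ℝ, L = 1 + Real.log k := ⟨_, rfl⟩
  have hL1 : 1 ≤ L := by rw [hL]; linarith
  rw [← hL]
  have hkL : (k : ℝ) ≤ k * L := by nlinarith
  have hb : Real.exp (-(104 * L)) ≤ Real.exp (-100) / (2 * k) / 5 := by
    rw [div_div, le_div_iff₀ (by positivity)]
    have h1 : 2 * (k:ℝ) * 5 ≤ Real.exp (4 + Real.log k) := by
      rw [Real.exp_add, Real.exp_log hk0]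
      have := e4
      nlinarith
    calc Real.exp (-(104 * L)) * (2 * (k:ℝ) * 5) ≤ Real.exp (-(104 * L)) * Real.exp (4 + Real.log k) :=
          mul_le_mul_of_nonneg_left h1 (Real.exp_nonneg _)
      _ = Real.exp (-(104 * L) + (4 + Real.log k)) := (Real.exp_add _ _).symm
      _ ≤ Real.exp (-100) := by
          refine Real.exp_le_exp.2 ?_
          have : Real.log k = L - 1 := by rw [hL]; ring
          rw [this]
          linarith
  have hp : Real.exp (-(104 * L)) ^ (2 * (14 * k)) ≤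
      (Real.exp (-100) / (2 * k) / 5) ^ (2 * (14 * k)) :=
    pow_le_pow_left₀ (Real.exp_nonneg _) hb _
  rw [← Real.exp_nat_mul] at hp
  have hq : Real.exp (-(14 * k)) ≤ 2 / ((14 * k : ℕ) : ℝ) := by
    push_cast
    rw [le_div_iff₀ (by positivity)]
    have h1 := x_le_exp (14 * (k:ℝ))
    calc Real.exp (-(14 * (k:ℝ))) * (14 * k) ≤ Real.exp (-(14 * (k:ℝ))) * Real.exp (14 * k) :=
          mul_le_mul_of_nonneg_left h1 (Real.exp_nonneg _)
      _ = 1 := by rw [← Real.exp_add, neg_add_cancel, Real.exp_zero]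
      _ ≤ 2 := by norm_num
  have e : rho k = (Real.exp (-100) / (2 * k) / 5) ^ (2 * (14 * k)) * (2 / ((14 * k : ℕ) : ℝ)) := by
    unfold rho
    ring
  rw [e]
  calc Real.exp (-(2950 * k * L)) ≤
        Real.exp (((2 * (14 * k) : ℕ) : ℝ) * -(104 * L)) * Real.exp (-(14 * k)) := by
        rw [← Real.exp_add]
        refine Real.exp_le_exp.2 ?_
        push_cast
        nlinarith
    _ ≤ _ := mul_le_mul hp hq (Real.exp_nonneg _) (by positivity)

theorem num {k : ℕ} (hk : 1 ≤ k) :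
    Real.exp (-ex k) ≤ min (rho k / 4) (1 / k) ∧
    Real.exp (-ex k) * ((max (2 * k + 1) ⌈12 / rho k⌉₊ : ℕ) + 1) ≤ Real.log 2 := by
  have hkR : (1:ℝ) ≤ k := by exact_mod_cast hk
  have hk0 : (0:ℝ) < k := by linarith
  have hl : 0 ≤ Real.log k := Real.log_nonneg hkR
  have hr := rho_ge hk
  unfold ex
  obtain ⟨L, hL⟩ : ∃ L : ℝ, L = 1 + Real.log k := ⟨_, rfl⟩
  have hL1 : 1 ≤ L := by rw [hL]; linarith
  rw [← hL] at hr ⊢
  have hkL : (k : ℝ) ≤ k * L := by nlinarith
  have hkL1 : 1 ≤ (k : ℝ) * L := by linarith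
  have hr0 : 0 < rho k := lt_of_lt_of_le (Real.exp_pos _) hr
  obtain ⟨t, ht⟩ : ∃ t : ℝ, t = k * L := ⟨_, rfl⟩
  rw [← ht] at hkL hkL1
  have e1 : 2950 * (k:ℝ) * L = 2950 * t := by rw [ht]; ring
  have e2 : 3000 * (k:ℝ) * L = 3000 * t := by rw [ht]; ring
  rw [e1] at hr
  rw [e2]
  constructor
  · refine le_min ?_ ?_
    · rw [le_div_iff₀ (by norm_num)]
      refine le_trans ?_ hr
      calc Real.exp (-(3000 * t)) * 4 ≤ Real.exp (-(3000 * t)) * Real.exp 4 :=
            mul_le_mul_of_nonneg_left (x_le_exp 4) (Real.exp_nonneg _)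
        _ = Real.exp (-(3000 * t) + 4) := (Real.exp_add _ _).symm
        _ ≤ Real.exp (-(2950 * t)) := Real.exp_le_exp.2 (by linarith)
    · rw [le_div_iff₀ hk0]
      calc Real.exp (-(3000 * t)) * k ≤ Real.exp (-(3000 * t)) * Real.exp k :=
            mul_le_mul_of_nonneg_left (x_le_exp _) (Real.exp_nonneg _)
        _ = Real.exp (-(3000 * t) + k) := (Real.exp_add _ _).symm
        _ ≤ Real.exp 0 := Real.exp_le_exp.2 (by linarith)
        _ = 1 := Real.exp_zero
  · have hceil : ((⌈12 / rho k⌉₊ : ℕ) : ℝ) ≤ 12 / rho k + 1 := (Nat.ceil_lt_add_one (by positivity)).le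
    have h12 : 12 / rho k ≤ Real.exp (2954 * t) := by
      rw [div_le_iff₀ hr0]
      calc (12:ℝ) ≤ Real.exp 4 := by have := e4; linarith
        _ ≤ Real.exp (2954 * t + -(2950 * t)) := Real.exp_le_exp.2 (by linarith)
        _ = Real.exp (2954 * t) * Real.exp (-(2950 * t)) := Real.exp_add _ _
        _ ≤ Real.exp (2954 * t) * rho k := mul_le_mul_of_nonneg_left hr (Real.exp_nonneg _)
    have hmax : ((max (2 * k + 1) ⌈12 / rho k⌉₊ : ℕ) : ℝ) + 1 ≤ 2 * Real.exp (2954 * t) := by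
      have h5 : 5 * (k:ℝ) ≤ Real.exp (2954 * t) :=
        (x_le_exp _).trans (Real.exp_le_exp.2 (by linarith))
      have h1e : (2:ℝ) ≤ Real.exp (2954 * t) := by linarith
      rw [Nat.cast_max]
      rcases le_total ((2 * k + 1 : ℕ) : ℝ) ((⌈12 / rho k⌉₊ : ℕ) : ℝ) with h | h
      · rw [max_eq_right h]
        linarith
      · rw [max_eq_left h]
        push_cast
        linarith
    have hlog : (1:ℝ) / 2 ≤ Real.log 2 := by
      have := Real.log_two_gt_d9
      linarith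
    refine le_trans ?_ hlog
    calc Real.exp (-(3000 * t)) * (((max (2 * k + 1) ⌈12 / rho k⌉₊ : ℕ) : ℝ) + 1)
        ≤ Real.exp (-(3000 * t)) * (2 * Real.exp (2954 * t)) :=
          mul_le_mul_of_nonneg_left hmax (Real.exp_nonneg _)
      _ = 2 * (Real.exp (-(3000 * t)) * Real.exp (2954 * t)) := by ring
      _ = 2 * Real.exp (-(46 * t)) := by
          rw [← Real.exp_add]
          congr 2
          ring
      _ ≤ 2 * Real.exp (-4) := by
          refine mul_le_mul_of_nonneg_left (Real.exp_le_exp.2 (by linarith)) (by norm_num)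
      _ ≤ 1 / 2 := by
          rw [Real.exp_neg]
          have h4 := e4
          rw [← div_eq_mul_inv, div_le_iff₀ (by positivity)]
          linarith

end Pool.Agent.Y995.ST1
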